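import Pool.Agent.H37.CPX.Targets

/-!
# Row PJN: many odd variables
-/

namespace Pool.Agent.H75.CPX

open Finset Pool.Agent.H37.CPX

theorem pf_PJN : S_PJN := by
  classical
  intro N m k w0 s J T
  have hsub : s.P J ⊆ s.Nb J := by
    intro i hi
    have h1 := (mem_filter.1 hi).2
    have h2 : (J.filter (fun j => i ∈ s.S j)).Nonempty := by
      rw [nonempty_iff_ne_empty]
      intro h3
      rw [h3] at h1
      simp at h1
    obtain ⟨j, hj⟩ := h2
    obtain ⟨hj1, hj2⟩ := mem_filter.1 hj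
    exact mem_biUnion.2 ⟨j, hj1, hj2⟩
  refine ⟨hsub, ?_⟩
  obtain ⟨U, hU⟩ : ∃ U, U = s.Nb J \ T := ⟨_, rfl⟩
  rw [← hU]
  -- double counting
  have h1 : ∑ i ∈ U, (J.filter (fun j => i ∈ s.S j)).card =
      ∑ j ∈ J, (U.filter (fun i => i ∈ s.S j)).card :=
    sum_card_bipartiteAbove_eq_sum_card_bipartiteBelow (fun i j => i ∈ s.S j)
  have h2 : ∑ j ∈ J, (U.filter (fun i => i ∈ s.S j)).card ≤ (k + 6) * J.card := by
    calc ∑ j ∈ J, (U.filter (fun i => i ∈ s.S j)).card ≤ ∑ j ∈ J, (k + 6) := by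
          refine sum_le_sum fun j _ => ?_
          rw [← s.card_S j]
          exact card_le_card fun i hi => (mem_filter.1 hi).2
      _ = (k + 6) * J.card := by rw [sum_const, smul_eq_mul, mul_comm]
  have h3 : ∑ i ∈ U, 2 ≤ ∑ i ∈ U, ((J.filter (fun j => i ∈ s.S j)).card +
      if i ∈ s.P J then 1 else 0) := by
    refine sum_le_sum fun i hi => ?_
    rw [hU] at hi
    obtain ⟨hi1, _⟩ := mem_sdiff.1 hi
    obtain ⟨j, hj1, hj2⟩ := mem_biUnion.1 hi1
    have h4 : 0 < (J.filter (fun j => i ∈ s.S j)).card :=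
      card_pos.2 ⟨j, mem_filter.2 ⟨hj1, hj2⟩⟩
    by_cases h5 : i ∈ s.P J
    · rw [if_pos h5]
      omega
    · rw [if_neg h5]
      have h6 : (J.filter (fun j => i ∈ s.S j)).card % 2 ≠ 1 := fun h =>
        h5 (mem_filter.2 ⟨mem_univ _, h⟩)
      omega
  have h4 : ∑ i ∈ U, (if i ∈ s.P J then 1 else 0) ≤ (s.P J \ T).card := by
    rw [← card_filter]
    refine card_le_card fun i hi => ?_
    obtain ⟨hi1, hi2⟩ := mem_filter.1 hi
    rw [hU] at hi1
    exact mem_sdiff.2 ⟨hi2, (mem_sdiff.1 hi1).2⟩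
  rw [sum_add_distrib, sum_const, smul_eq_mul] at h3
  omega

end Pool.Agent.H75.CPX
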