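import Pool.Agent.H37.CPX.Targets

/-!
# Row CLO: closure
-/

namespace Pool.Agent.H75.CPX

open Finset Pool.Agent.H37.CPX

theorem pf_CLO : S_CLO := by
  classical
  intro N m k w0 s T0 J hJ hN
  by_cases hw : w0 < T0.card
  · exact ⟨J, Subset.refl _, hJ, hN, fun h => absurd h (by omega)⟩
  push Not at hw
  obtain ⟨Fa, hFa⟩ : ∃ Fa : Finset (Finset (Fin m)), Fa = univ.filter (fun J' =>
    J ⊆ J' ∧ J'.card ≤ T0.card ∧ (s.Nb J' \ T0).card ≤ (k + 3) * J'.card) := ⟨_, rfl⟩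
  have hmem : ∀ J', J' ∈ Fa ↔ J ⊆ J' ∧ J'.card ≤ T0.card ∧
      (s.Nb J' \ T0).card ≤ (k + 3) * J'.card := by
    intro J'
    rw [hFa, mem_filter]
    exact ⟨fun h => h.2, fun h => ⟨mem_univ _, h⟩⟩
  have hne : Fa.Nonempty := ⟨J, (hmem J).2 ⟨Subset.refl _, hJ, hN⟩⟩
  obtain ⟨J', hJ', hmax⟩ := exists_max_image Fa (fun J' => J'.card) hne
  obtain ⟨h1, h2, h3⟩ := (hmem J').1 hJ'
  refine ⟨J', h1, h2, h3, fun _ J1 hJ1 hdis hJ1w => ?_⟩
  by_contra hcon
  push Not at hcon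
  have hNb : s.Nb (J' ∪ J1) = s.Nb J' ∪ s.Nb J1 := by
    unfold Sy.Nb
    exact union_biUnion
  have hcard : (J' ∪ J1).card = J'.card + J1.card := card_union_of_disjoint hdis.symm
  have hle : (s.Nb (J' ∪ J1) \ T0).card ≤ (k + 3) * (J' ∪ J1).card := by
    have h4 : s.Nb (J' ∪ J1) \ T0 ⊆ (s.Nb J' \ T0) ∪ (s.Nb J1 \ (T0 ∪ s.Nb J')) := by
      intro i hi
      rw [hNb] at hi
      obtain ⟨hi1, hi2⟩ := mem_sdiff.1 hi
      by_cases h5 : i ∈ s.Nb J'
      · exact mem_union_left _ (mem_sdiff.2 ⟨h5, hi2⟩)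
      · rcases mem_union.1 hi1 with h6 | h6
        · exact absurd h6 h5
        · refine mem_union_right _ (mem_sdiff.2 ⟨h6, fun h7 => ?_⟩)
          rcases mem_union.1 h7 with h8 | h8
          · exact hi2 h8
          · exact h5 h8
    have h5 := (card_le_card h4).trans (card_union_le _ _)
    rw [hcard, mul_add]
    omega
  have h2w : (J' ∪ J1).card ≤ 2 * w0 := by
    rw [hcard]
    omega
  have hexp := s.exp _ h2w
  have h6 : ((J' ∪ J1).biUnion s.S).card ≤ T0.card + (s.Nb (J' ∪ J1) \ T0).card := by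
    have h7 : (J' ∪ J1).biUnion s.S ⊆ T0 ∪ (s.Nb (J' ∪ J1) \ T0) := by
      intro i hi
      by_cases h8 : i ∈ T0
      · exact mem_union_left _ h8
      · exact mem_union_right _ (mem_sdiff.2 ⟨hi, h8⟩)
    exact (card_le_card h7).trans (card_union_le _ _)
  have h9 : (J' ∪ J1).card ≤ T0.card := by
    have h10 : (k + 4) * (J' ∪ J1).card = (k + 3) * (J' ∪ J1).card + (J' ∪ J1).card := by ring
    omega
  have h11 := hmax (J' ∪ J1) ((hmem _).2 ⟨h1.trans subset_union_left, h9, hle⟩)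
  have h12 : 0 < J1.card := card_pos.2 hJ1
  simp only [hcard] at h11
  omega

end Pool.Agent.H75.CPX
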